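import Pool.Agent.Helper34.FB.Goals

/-!
# Packet FB-SOC
-/

set_option autoImplicit false

namespace Pool.Agent.Helper83.FB

open Pool.Agent.Helper34.FB

universe u

theorem gSOC : Pool.Agent.Helper34.FB.G_SOC.{u} := by
  intro R _ _ t1 t2 hreg ht1 e n f c1 c2 ψ _ h2 hsyz b hb1 hb2
  rw [Ideal.mem_span_range_iff_exists_fun] at hb1 hb2
  obtain ⟨a, ha⟩ := hb1
  obtain ⟨a', ha'⟩ := hb2
  obtain ⟨α, hα⟩ := hsyz (fun j => t2 * a j - t1 * a' j) (by
    have e1 : ∑ j, (t2 * a j - t1 * a' j) * f j =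
        t2 * ∑ j, a j * f j - t1 * ∑ j, a' j * f j := by
      rw [Finset.mul_sum, Finset.mul_sum, ← Finset.sum_sub_distrib]
      exact Finset.sum_congr rfl fun j _ => by ring
    rw [e1, ha, ha']
    ring)
  have key : ∀ j, ∃ c : R, a j - ∑ k, α k * c2 k j = t1 * c := by
    intro j
    obtain ⟨c, _, hc⟩ := hreg (-(a' j + ∑ k, α k * c1 k j)) (a j - ∑ k, α k * c2 k j) (by
      have h3 := hα j
      have e1 : ∑ k, α k * (t1 * c1 k j + t2 * c2 k j) =
          t1 * ∑ k, α k * c1 k j + t2 * ∑ k, α k * c2 k j := by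
        rw [Finset.mul_sum, Finset.mul_sum, ← Finset.sum_add_distrib]
        exact Finset.sum_congr rfl fun k _ => by ring
      rw [e1] at h3
      linear_combination h3)
    exact ⟨c, hc⟩
  choose ε hε using key
  refine ⟨α, ?_⟩
  rw [Ideal.mem_span_range_iff_exists_fun]
  refine ⟨ε, ?_⟩
  apply mul_left_cancel₀ ht1
  have e2 : t1 * b = ∑ k, α k * (t1 * ψ k) + t1 * ∑ j, ε j * f j := by
    rw [← ha]
    have e3 : ∑ k, α k * (t1 * ψ k) = ∑ j, (∑ k, α k * c2 k j) * f j := by
      have : ∀ k, α k * (t1 * ψ k) = ∑ j, α k * c2 k j * f j := by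
        intro k
        rw [← h2 k, Finset.mul_sum]
        exact Finset.sum_congr rfl fun j _ => by ring
      rw [Finset.sum_congr rfl fun k _ => this k, Finset.sum_comm]
      exact Finset.sum_congr rfl fun j _ => by rw [Finset.sum_mul]
    rw [e3, Finset.mul_sum, ← Finset.sum_add_distrib]
    refine Finset.sum_congr rfl fun j _ => ?_
    have := hε j
    linear_combination f j * this
  rw [mul_sub, e2, Finset.mul_sum (f := fun k => α k * ψ k)]
  have e4 : ∑ k, t1 * (α k * ψ k) = ∑ k, α k * (t1 * ψ k) :=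
    Finset.sum_congr rfl fun k _ => by ring
  rw [e4]
  ring

end Pool.Agent.Helper83.FB
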